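import Mathlib
import Pool.Agent.D0H64.MX.Stm3

/-!
# Project MX (helper64), module WILD: the exponent of `p` in the discriminant of a Galois extension of `ℚ`
-/

set_option autoImplicit false

namespace Pool.Agent.D0H30.MX

open Ideal Module NumberField Pointwise

/-- `p ^ [N : ℚ]` does not divide the different -/
lemma not_dvd_diff (N : Type) [Field N] [NumberField N] (p : ℕ) (hp : p.Prime) :
    ¬ (Ideal.map (algebraMap ℤ (𝓞 N)) (Ideal.span {(p : ℤ) ^ finrank ℚ N})) ∣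
      differentIdeal ℤ (𝓞 N) := by
  refine not_dvd_differentIdeal_of_intTrace_not_mem ℤ
    (p := Ideal.span {(p : ℤ) ^ finrank ℚ N}) _ ⊤ (Ideal.mul_top _) 1 trivial ?_
  have h1 : Algebra.intTrace ℤ (𝓞 N) 1 = (finrank ℚ N : ℤ) := by
    rw [Algebra.intTrace_eq_trace]
    have h2 := Algebra.trace_algebraMap (S := 𝓞 N) (1 : ℤ)
    rw [map_one] at h2
    rw [h2, RingOfIntegers.rank]
    simp
  rw [h1, Ideal.mem_span_singleton]
  intro h
  have h3 : p ^ finrank ℚ N ∣ finrank ℚ N := by exact_mod_cast h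
  have h4 := Nat.le_of_dvd finrank_pos h3
  have h5 := Nat.lt_pow_self hp.one_lt (n := finrank ℚ N)
  omega

lemma coe_smul' (N : Type) [Field N] [NumberField N] (σ : N ≃ₐ[ℚ] N) (z : 𝓞 N) :
    algebraMap (𝓞 N) N (σ • z) = σ (algebraMap (𝓞 N) N z) := rfl

/-- the different is invariant -/
lemma diff_le_smul (N : Type) [Field N] [NumberField N] (σ : N ≃ₐ[ℚ] N) (I : Ideal (𝓞 N))
    (hI : I ≠ ⊥) (h : differentIdeal ℤ (𝓞 N) ≤ I) : differentIdeal ℤ (𝓞 N) ≤ σ • I := by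
  have hI' : σ • I ≠ ⊥ := by
    intro h0
    apply hI
    have := congrArg (fun J : Ideal (𝓞 N) => σ⁻¹ • J) h0
    simpa using this
  rw [differentialIdeal_le_iff (K := ℚ) (L := N) hI] at h
  rw [differentialIdeal_le_iff (K := ℚ) (L := N) hI']
  rintro y ⟨x, hx, rfl⟩
  have hx' : x ∈ ((σ • I : Ideal (𝓞 N)) : FractionalIdeal (nonZeroDivisors (𝓞 N)) N)⁻¹ := hx
  rw [FractionalIdeal.mem_inv_iff (by simpa using hI')] at hx'
  have h1 : σ⁻¹ x ∈ ((I : Ideal (𝓞 N)) : FractionalIdeal (nonZeroDivisors (𝓞 N)) N)⁻¹ := by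
    rw [FractionalIdeal.mem_inv_iff (by simpa using hI)]
    intro y hy
    rw [FractionalIdeal.mem_coeIdeal] at hy
    obtain ⟨y', hy', rfl⟩ := hy
    have h2 := hx' (algebraMap (𝓞 N) N (σ • y')) (by
      rw [FractionalIdeal.mem_coeIdeal]
      exact ⟨σ • y', Ideal.smul_mem_pointwise_smul σ y' I hy', rfl⟩)
    rw [FractionalIdeal.mem_one_iff] at h2 ⊢
    obtain ⟨z, hz⟩ := h2
    refine ⟨σ⁻¹ • z, ?_⟩
    rw [coe_smul', hz, map_mul, coe_smul']
    congr 1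
    exact (AlgEquiv.symm_apply_apply σ _).symm ▸ rfl
  have h4 : Algebra.trace ℚ N (σ⁻¹ x) = Algebra.trace ℚ N x :=
    Algebra.trace_eq_of_algEquiv (σ⁻¹ : N ≃ₐ[ℚ] N) x
  exact h ⟨σ⁻¹ x, h1, h4⟩

/-- powers of a prime in the different: the same for all the primes over `p` -/
lemma pow_dvd_smul (N : Type) [Field N] [NumberField N] (σ : N ≃ₐ[ℚ] N) (P : Ideal (𝓞 N))
    (hP : P ≠ ⊥) (a : ℕ) (h : P ^ a ∣ differentIdeal ℤ (𝓞 N)) :
    (σ • P) ^ a ∣ differentIdeal ℤ (𝓞 N) := by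
  rw [← smul_pow', Ideal.dvd_iff_le]
  refine diff_le_smul N σ _ ?_ (Ideal.dvd_iff_le.1 h)
  exact pow_ne_zero a hP

/-- comparison of the exponents of `p` in the norms of ideals -/
lemma padic_le (N : Type) [Field N] [NumberField N] (p : ℕ) (hp : p.Prime) (I K : Ideal (𝓞 N))
    (hI : I ≠ ⊥) (hK : K ≠ ⊥)
    (h : ∀ P : Ideal (𝓞 N), P.IsMaximal → P.under ℤ = Ideal.span {(p : ℤ)} →
      ∀ a : ℕ, P ^ a ∣ I → P ^ a ∣ K) :
    padicValNat p (Ideal.absNorm I) ≤ padicValNat p (Ideal.absNorm K) := by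
  have : Fact p.Prime := ⟨hp⟩
  have hA : I ⊔ K ∣ I := Ideal.dvd_iff_le.2 le_sup_left
  have hAK : I ⊔ K ∣ K := Ideal.dvd_iff_le.2 le_sup_right
  obtain ⟨B, hB⟩ := hA
  have hA0 : I ⊔ K ≠ ⊥ := by
    intro h0
    exact hI (le_bot_iff.1 (h0 ▸ le_sup_left))
  have hB0 : B ≠ ⊥ := by
    rintro rfl
    apply hI
    rw [hB, Ideal.mul_bot]
  have hn : ∀ J : Ideal (𝓞 N), J ≠ ⊥ → Ideal.absNorm J ≠ 0 := fun J hJ => by
    rwa [Ne, Ideal.absNorm_eq_zero_iff]
  have h1 : ¬ p ∣ Ideal.absNorm B := by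
    intro hd
    obtain ⟨P, hPm, hPu, hPB⟩ := Ideal.exists_isMaximal_dvd_of_dvd_absNorm' hp B hd
    have hPA : FiniteMultiplicity P (I ⊔ K) := by
      apply FiniteMultiplicity.of_not_isUnit
      · intro hu
        rw [Ideal.isUnit_iff] at hu
        exact hPm.ne_top hu
      · exact hA0
    have h2 : P ^ (multiplicity P (I ⊔ K) + 1) ∣ (I ⊔ K) * B := by
      rw [pow_succ]
      exact mul_dvd_mul (pow_multiplicity_dvd P (I ⊔ K)) hPB
    rw [← hB] at h2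
    have h3 := h P hPm hPu _ h2
    have h4 : P ^ (multiplicity P (I ⊔ K) + 1) ∣ I ⊔ K := by
      rw [Ideal.dvd_iff_le] at h2 h3 ⊢
      exact sup_le h2 h3
    exact hPA.not_pow_dvd_of_multiplicity_lt (Nat.lt_succ_self _) h4
  have h5 : padicValNat p (Ideal.absNorm I) = padicValNat p (Ideal.absNorm (I ⊔ K)) := by
    conv_lhs => rw [hB]
    rw [map_mul, padicValNat.mul (hn _ hA0) (hn _ hB0), padicValNat.eq_zero_of_not_dvd h1, add_zero]
  rw [h5]
  exact (padicValNat_dvd_iff_le (hn _ hK)).1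
    (pow_padicValNat_dvd.trans (Ideal.absNorm_dvd_absNorm_of_le (Ideal.dvd_iff_le.1 hAK)))

theorem t_WILD : Pool.Agent.D0H64.MX.S_WILD := by
  intro N _ _ _ p hp
  have : Fact p.Prime := ⟨hp⟩
  set g := finrank ℚ N with hg
  have hgpos : 0 < g := finrank_pos
  rw [← absNorm_differentIdeal N (𝒪 := 𝓞 N)]
  have hD0 : differentIdeal ℤ (𝓞 N) ≠ ⊥ := differentIdeal_ne_bot
  have hp0 : (p : ℤ) ≠ 0 := by exact_mod_cast hp.ne_zero
  have hmax : (Ideal.span {(p : ℤ)}).IsMaximal := by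
    apply PrincipalIdealRing.isMaximal_of_irreducible
    exact (Nat.prime_iff_prime_int.1 hp).irreducible
  have hs0 : (Ideal.span {(p : ℤ)}) ≠ 0 := by
    rw [Ne, Ideal.zero_eq_bot, Ideal.span_singleton_eq_bot]
    exact hp0
  set K : Ideal (𝓞 N) := Ideal.map (algebraMap ℤ (𝓞 N)) (Ideal.span {(p : ℤ)}) with hK
  have hK0 : K ≠ ⊥ := Ideal.map_ne_bot_of_ne_bot hs0
  have hKg : K ^ g = Ideal.map (algebraMap ℤ (𝓞 N)) (Ideal.span {(p : ℤ) ^ finrank ℚ N}) := by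
    rw [hK, ← Ideal.map_pow, Ideal.span_singleton_pow]
  have hfac := Ideal.map_algebraMap_eq_finsetProd_pow (R := 𝓞 N) (p := Ideal.span {(p : ℤ)}) hs0
  have hnK : Ideal.absNorm K = p ^ g := by
    rw [hK, Ideal.absNorm_algebraMap, RingOfIntegers.rank, Ideal.absNorm_span_singleton,
      Algebra.norm_self]
    simp [hg]
  have hnorm : padicValNat p (Ideal.absNorm (K ^ g)) = g ^ 2 := by
    rw [map_pow, hnK, ← pow_mul, padicValNat.prime_pow, sq]
  rw [← hnorm]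
  apply padic_le N p hp _ _ hD0 (pow_ne_zero g hK0)
  intro P hPm hPu a ha
  have hPl : P.LiesOver (Ideal.span {(p : ℤ)}) := ⟨hPu.symm⟩
  have hPp : P.IsPrime := hPm.isPrime
  have hP0 : P ≠ ⊥ := by
    rintro rfl
    apply hs0
    rw [← hPu, Ideal.under_bot]
    rfl
  set e := P.ramificationIdx ℤ with he
  have hPK : P ^ e ∣ K := by
    rw [hK, hfac]
    exact Finset.dvd_prod_of_mem (fun Q : Ideal (𝓞 N) => Q ^ Q.ramificationIdx ℤ)
      (by rw [Set.mem_toFinset]; exact ⟨hPp, hPl⟩)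
  rcases Nat.lt_or_ge (e * g) a with h | h
  · exfalso
    apply not_dvd_diff N p hp
    rw [← hKg, hK, hfac, ← Finset.prod_pow]
    apply Finset.prod_dvd_of_coprime
    · intro Q hQ Q' hQ' hne
      simp only [Finset.mem_coe, Set.mem_toFinset] at hQ hQ'
      have i1 : Q.LiesOver (Ideal.span {(p : ℤ)}) := hQ.2
      have i2 : Q'.LiesOver (Ideal.span {(p : ℤ)}) := hQ'.2
      have i3 : Q.IsPrime := hQ.1
      have i4 : Q'.IsPrime := hQ'.1
      have j1 : Q.IsMaximal := IsMaximal.of_liesOver_isMaximal Q (Ideal.span {(p : ℤ)})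
      have j2 : Q'.IsMaximal := IsMaximal.of_liesOver_isMaximal Q' (Ideal.span {(p : ℤ)})
      refine IsCoprime.pow (IsCoprime.pow ?_)
      rw [Ideal.isCoprime_iff_sup_eq]
      exact j1.coprime_of_ne j2 hne
    · intro Q hQ
      simp only [Set.mem_toFinset] at hQ
      have i1 : Q.LiesOver (Ideal.span {(p : ℤ)}) := hQ.2
      have i3 : Q.IsPrime := hQ.1
      obtain ⟨σ, hσ⟩ := Ideal.exists_smul_eq_of_isGaloisGroup (Ideal.span {(p : ℤ)}) P Q (N ≃ₐ[ℚ] N)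
      have h1 : Q.ramificationIdx ℤ = e :=
        Ideal.ramificationIdx_eq_of_isGaloisGroup (Ideal.span {(p : ℤ)}) Q P (N ≃ₐ[ℚ] N)
      rw [h1, ← pow_mul, ← hσ]
      exact pow_dvd_smul N σ P hP0 _ ((pow_dvd_pow P h.le).trans ha)
  · calc P ^ a ∣ P ^ (e * g) := pow_dvd_pow P h
      _ = (P ^ e) ^ g := pow_mul _ _ _
      _ ∣ K ^ g := pow_dvd_pow_of_dvd hPK g

end Pool.Agent.D0H30.MX
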